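import Pool.Agent.helper51.NP.Spec

/-!
# Project np, module MAS: the integers with two primes carry a positive proportion of the weight
-/

set_option autoImplicit false

namespace NPC

open Finset Real ArithmeticFunction Filter Pool.Agent.helper39.MT Pool.Agent.helper85.FC

theorem MAS_core {kc : ℕ} (I : Finset ℕ) (v : ℕ → ℝ) (lm : Fin (5 * kc) → ℕ → ℝ) {a G t : ℝ}
    (good : ℕ → Prop) [DecidablePred good]
    (ha : 0 < a) (hv : ∀ n ∈ I, 0 ≤ v n)
    (_hlm : ∀ i n, 0 ≤ lm i n)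
    (h1 : ∑ n ∈ I, v n ≤ 1001 / 1000 * G)
    (h2 : ∀ i, 998 / 1000 * t ≤ ∑ n ∈ I, v n * lm i n)
    (h3 : ∀ i, ∀ n ∈ I, v n ≠ 0 → lm i n ≤ 1001 / 1000 * a)
    (h5 : 10 * a * G ≤ kc * t) (hG : 0 ≤ G)
    (h6 : ∀ n ∈ I, v n ≠ 0 → ¬ good n → ∀ i i', i ≠ i' → lm i n = 0 ∨ lm i' n = 0) :
    9 * G ≤ kc * ∑ n ∈ I with good n, v n := by
  classical
  have hkc0 : (0 : ℝ) ≤ kc := Nat.cast_nonneg kc
  set s : ℝ := ∑ n ∈ I with good n, v n with hs
  have hA : 5 * kc * (998 / 1000 * t) ≤ ∑ i : Fin (5 * kc), ∑ n ∈ I, v n * lm i n := by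
    have h7 := card_nsmul_le_sum (univ : Finset (Fin (5 * kc)))
      (fun i => ∑ n ∈ I, v n * lm i n) (998 / 1000 * t) (fun i _ => h2 i)
    rw [card_univ, Fintype.card_fin, nsmul_eq_mul] at h7
    push_cast at h7
    exact h7
  have hB : ∑ i : Fin (5 * kc), ∑ n ∈ I, v n * lm i n
      = ∑ n ∈ I, v n * ∑ i : Fin (5 * kc), lm i n := by
    rw [sum_comm]
    refine sum_congr rfl fun n _ => ?_
    rw [mul_sum]
  have hC : ∀ n ∈ I, v n * ∑ i : Fin (5 * kc), lm i n
      ≤ 1001 / 1000 * a * v n + (if good n then 5 * kc * (1001 / 1000 * a) * v n else 0) := by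
    intro n hn
    have hvn0 := hv n hn
    rcases eq_or_ne (v n) 0 with hvn | hvn
    · rw [hvn]; simp
    by_cases hg : good n
    · rw [if_pos hg]
      have h7 := sum_le_card_nsmul (univ : Finset (Fin (5 * kc))) (fun i => lm i n)
        (1001 / 1000 * a) (fun i _ => h3 i n hn hvn)
      rw [card_univ, Fintype.card_fin, nsmul_eq_mul] at h7
      push_cast at h7
      have h8 := mul_le_mul_of_nonneg_left h7 hvn0
      have h9 : 0 ≤ 1001 / 1000 * a * v n := by positivity
      linarith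
    · rw [if_neg hg, add_zero]
      have h7 : ∑ i : Fin (5 * kc), lm i n ≤ 1001 / 1000 * a := by
        by_cases hex : ∃ i, lm i n ≠ 0
        · obtain ⟨i, hi⟩ := hex
          rw [sum_eq_single i]
          · exact h3 i n hn hvn
          · intro i' _ hii
            rcases h6 n hn hvn hg i i' (Ne.symm hii) with h | h
            · exact absurd h hi
            · exact h
          · intro h; exact absurd (mem_univ i) h
        · push Not at hex
          rw [sum_eq_zero fun i _ => hex i]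
          positivity
      have h8 := mul_le_mul_of_nonneg_left h7 hvn0
      linarith
  have hD : ∑ n ∈ I, v n * ∑ i : Fin (5 * kc), lm i n
      ≤ 1001 / 1000 * a * (1001 / 1000 * G) + 5 * kc * (1001 / 1000 * a) * s := by
    refine (sum_le_sum hC).trans ?_
    rw [sum_add_distrib, ← mul_sum, ← sum_filter, ← mul_sum]
    have h9 : 1001 / 1000 * a * ∑ n ∈ I, v n ≤ 1001 / 1000 * a * (1001 / 1000 * G) :=
      mul_le_mul_of_nonneg_left h1 (by positivity)
    linarith
  have hE : 5 * kc * (998 / 1000 * t)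
      ≤ 1001 / 1000 * a * (1001 / 1000 * G) + 5 * kc * (1001 / 1000 * a) * s := by
    rw [hB] at hA
    exact hA.trans hD
  have hF : 4 * 10 * (a * G) ≤ 5 * kc * (998 / 1000 * t) - 9 * (a * G) := by nlinarith
  have hGG : a * (9 * G) ≤ a * (kc * s) := by nlinarith
  exact le_of_mul_le_mul_left hGG ha

theorem MAS : MAS_stmt := by
  classical
  obtain ⟨kc, D₀, hkc, hD, hmodel⟩ := model5 10 (1 / 2000) (by norm_num) (by norm_num)
  have hkc0 : (1 : ℝ) ≤ kc := by exact_mod_cast hkc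
  have hk : 2 ≤ 5 * kc := by omega
  refine ⟨5 * kc, D₀, hk, hD, 1 / kc, by positivity, fun A B W h => ?_⟩
  obtain ⟨a₀, hm⟩ := hmodel W h.Wpos h.small
  obtain ⟨a₁, hS1⟩ := S1_gen h hD
  obtain ⟨a₂, hS2⟩ := S2_gen h hk hD (1 / 2000) (by norm_num) (by norm_num) 8
  obtain ⟨a₃, hmass⟩ := mass_bounds
  have hpm : ∀ᶠ a : ℝ in atTop, ∀ i, |pmass (a + Real.log (A i)) - mass a| ≤ 1 / 8000 :=
    eventually_all.2 fun i => F1_mass (A i) (h.Apos i) (by norm_num)
  set AB : ℕ := ∑ i, (A i + B i) with hAB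
  obtain ⟨a₄, ha₄⟩ := eventually_atTop.1
    (hpm.and ((eventually_ge_atTop a₀).and ((eventually_ge_atTop a₁).and
      ((eventually_ge_atTop a₂).and ((eventually_ge_atTop a₃).and
      ((eventually_ge_atTop (1000 * (Real.log (AB + 1) + 1))).and
      (eventually_ge_atTop (100000 : ℝ))))))))
  refine ⟨a₄, fun a ha => ?_⟩
  obtain ⟨hpm, ha0, ha1, ha2, ha3, haL, hbig⟩ := ha₄ a ha
  have hapos : 0 < a := by linarith
  -- the parameter R
  obtain ⟨R, hRdef⟩ : ∃ R : ℕ, R = ⌊Real.exp (a / 4)⌋₊ := ⟨_, rfl⟩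
  have hRle : (R : ℝ) ≤ Real.exp (a / 4) := by rw [hRdef]; exact Nat.floor_le (Real.exp_pos _).le
  have hR2 : 2 ≤ R := by
    rw [hRdef]
    refine Nat.le_floor ?_
    have := Real.add_one_le_exp (a / 4)
    push_cast
    linarith
  have hRle2 : (R : ℝ) ≤ Real.exp (a / 2) := hRle.trans (Real.exp_le_exp.2 (by linarith))
  have hRle1 : (R : ℝ) ≤ Real.exp a := hRle.trans (Real.exp_le_exp.2 (by linarith))
  obtain ⟨y, E₀, E₁, hy1, hy2, hE0, hE1, hE0', hE1', hT, hz⟩ := hm a ha0 R hRdef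
  obtain ⟨hM1, hM2⟩ := hmass a ha3
  refine ⟨R, y, E₀, hR2, hRle1, hy1, fun σ hσ => (hy2 σ hσ).trans
      (Real.exp_le_exp.2 (by linarith)), hE0, hE0', ?_⟩
  -- constants
  have hφ : 0 < (Nat.totient W : ℝ) := by exact_mod_cast Nat.totient_pos.2 h.Wpos
  have hW0 : 0 < (W : ℝ) := by exact_mod_cast h.Wpos
  obtain ⟨κi, hκi⟩ : ∃ κi : ℝ, κi = (W : ℝ) / Nat.totient W := ⟨_, rfl⟩
  obtain ⟨κ, hκ⟩ : ∃ κ : ℝ, κ = (Nat.totient W : ℝ) / W := ⟨_, rfl⟩
  have hκκ : κi * κ = 1 := by rw [hκi, hκ]; field_simp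
  have hκi1 : 1 ≤ κi := by
    rw [hκi, le_div_iff₀ hφ, one_mul]
    exact_mod_cast Nat.totient_le W
  have hκ0 : 0 < κ := by rw [hκ]; positivity
  rw [← hκ] at hT
  have hS2' := hS2 a ha2 R hR2 hRle2
  rw [← hκi] at hS2'
  set M : ℝ := mass a with hM
  set G : ℝ := M * E₀ with hG
  set t : ℝ := κi * M * E₁ with ht
  have hM0 : 0 < M := by linarith
  have hE00 : 0 < E₀ := by linarith
  have hE10 : 0 < E₁ := by linarith
  have hG0 : 0 < G := by positivity
  have hG1 : 1 / 8 * E₀ ≤ G := by rw [hG]; exact mul_le_mul_of_nonneg_right hM1 hE00.le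
  have hκi0 : 0 < κi := by linarith
  have ht0 : 0 < t := by positivity
  have ht1 : 1 / 16 ≤ t := by
    have h1 : 1 / 8 * (1 / 2) ≤ M * E₁ := mul_le_mul hM1 hE1 (by norm_num) hM0.le
    have h2 : M * E₁ ≤ κi * (M * E₁) := le_mul_of_one_le_left (by positivity) hκi1
    rw [ht, mul_assoc]
    linarith
  have hpmlow : ∀ i, 999 / 1000 * M ≤ pmass (a + Real.log (A i)) := fun i => by
    have := (abs_le.1 (hpm i)).1
    linarith
  have hT' : 10 * a * G ≤ kc * t := by
    have h1 : κi * M * (10 * a * κ * E₀) ≤ κi * M * (kc * E₁) :=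
      mul_le_mul_of_nonneg_left hT (by positivity)
    have h2 : κi * M * (10 * a * κ * E₀) = 10 * a * (M * E₀) * (κi * κ) := by ring
    rw [h2, hκκ, mul_one] at h1
    rw [hG, ht]
    linarith
  have hlog : ∀ i, ∀ n : ℕ, 0 < n → wt 1 a n ≠ 0 → Real.log ((A i : ℝ) * n + B i)
      ≤ 1001 / 1000 * a := by
    intro i n hn hw
    have hn2 := (F1_wt_support hn hw).2
    have hn1' : (1 : ℝ) ≤ n := by exact_mod_cast hn
    have hA : (0 : ℝ) < A i := by exact_mod_cast h.Apos i
    have hB : (0 : ℝ) < B i := by exact_mod_cast h.Bpos i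
    have h1 : ((A i : ℝ) * n + B i) ≤ (AB + 1) * Real.exp (a + 1) := by
      have h2 : (A i : ℝ) + B i ≤ AB := by
        rw [hAB]
        push_cast
        exact single_le_sum (f := fun i => (A i : ℝ) + B i) (fun i _ => by positivity) (mem_univ i)
      have h3 : (B i : ℝ) ≤ B i * n := le_mul_of_one_le_right hB.le hn1'
      calc (A i : ℝ) * n + B i ≤ A i * n + B i * n := by linarith
        _ = (A i + B i) * n := by ring
        _ ≤ (AB + 1) * Real.exp (a + 1) := by
          have : (0 : ℝ) ≤ AB := Nat.cast_nonneg _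
          exact mul_le_mul (by linarith) hn2.le (by linarith) (by linarith)
    calc Real.log ((A i : ℝ) * n + B i) ≤ Real.log ((AB + 1) * Real.exp (a + 1)) :=
          Real.log_le_log (by positivity) h1
      _ = Real.log (AB + 1) + (a + 1) := by
          rw [Real.log_mul (by positivity) (Real.exp_pos _).ne', Real.log_exp]
      _ ≤ _ := by linarith
  have hlam0 : ∀ n, 0 ≤ lam n := fun n => by
    unfold lam
    split_ifs
    · exact Real.log_natCast_nonneg n
    · exact le_rfl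
  have hlamle : ∀ i, ∀ n : ℕ, 0 < n → wt 1 a n ≠ 0 → lam (A i * n + B i) ≤ 1001 / 1000 * a := by
    intro i n hn hw
    have h1 := hlog i n hn hw
    unfold lam
    split_ifs
    · push_cast
      exact h1
    · positivity
  have hlamne : ∀ i, ∀ n : ℕ, lam (A i * n + B i) ≠ 0 → (A i * n + B i).Prime := by
    intro i n hne
    by_contra hc
    exact hne (by rw [lam, if_neg hc])
  have hinv : 1 / a ^ 8 ≤ 1 / 16000 := by
    have h1 : (16000 : ℝ) ≤ a ^ 8 := by
      calc (16000 : ℝ) ≤ a := by linarith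
        _ = a ^ 1 := (pow_one a).symm
        _ ≤ a ^ 8 := pow_le_pow_right₀ (by linarith) (by norm_num)
    exact one_div_le_one_div_of_le (by norm_num) h1
  have hcore := MAS_core (kc := kc) (Ioc 0 (NN 1 a))
    (fun n => wt 1 a n * FF (fun p : PS W R => (p : ℕ)) y (pat A B (PS W R) n) ^ 2)
    (fun i n => lam (A i * n + B i)) (a := a) (G := G) (t := t)
    (fun n => 2 ≤ #{i : Fin (5 * kc) | (A i * n + B i).Prime}) hapos
    (fun n _ => mul_nonneg (wt_nonneg _ _ _) (sq_nonneg _)) (fun i n => hlam0 _) ?_ ?_ ?_ hT'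
    hG0.le ?_
  · have h1 : 1 / (kc : ℝ) * E₀ ≤ 9 * G / kc := by
      rw [div_mul_eq_mul_div, one_mul]
      exact div_le_div_of_nonneg_right (by linarith) (by linarith)
    refine h1.trans ?_
    rw [div_le_iff₀ (by linarith)]
    rw [mul_comm (∑ n ∈ _, _) (kc : ℝ)]
    exact hcore
  · -- S1
    have h1 := hS1 a ha1 R hR2 hRle1 y hy1 (fun σ hσ => (hy2 σ hσ).trans
      (Real.exp_le_exp.2 (by linarith)))
    have h2 := (abs_le.1 h1).2
    have h3 : M * Ex (fun p : PS W R => mu0 (p : ℝ))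
        (fun e => FF (fun p : PS W R => (p : ℕ)) y e ^ 2) ≤ M * E₀ :=
      mul_le_mul_of_nonneg_left hE0' hM0.le
    have h4 : Real.exp (-a / 4) ≤ 1 / 8000 := by
      rw [show -a / 4 = -(a / 4) by ring, Real.exp_neg, ← one_div]
      refine one_div_le_one_div_of_le (by norm_num) ?_
      have := Real.add_one_le_exp (a / 4)
      linarith
    rw [hG] at hG1 ⊢
    linarith
  · -- S2
    intro i
    have h1 := hS2' y hy1 (fun σ hσ => (hy2 σ hσ).trans (Real.exp_le_exp.2 (by linarith))) i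
    have h2 := (abs_le.1 h1).1
    have h3 : 999 / 1000 * t ≤ κi * pmass (a + Real.log (A i)) *
        Ex (fun p : PS W R => mu1 i (p : ℝ))
          (fun e => FF (fun p : PS W R => (p : ℕ)) y e ^ 2) := by
      calc 999 / 1000 * t = κi * (999 / 1000 * M) * E₁ := by rw [ht]; ring
        _ ≤ κi * pmass (a + Real.log (A i)) * E₁ :=
            mul_le_mul_of_nonneg_right (mul_le_mul_of_nonneg_left (hpmlow i) hκi0.le) hE10.le
        _ ≤ _ := mul_le_mul_of_nonneg_left (hE1' i)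
            (mul_nonneg hκi0.le (le_trans (by positivity) (hpmlow i)))
    have h4 : ∑ n ∈ Ioc 0 (NN 1 a), wt 1 a n * FF (fun p : PS W R => (p : ℕ)) y
          (pat A B (PS W R) n) ^ 2 * lam (A i * n + B i)
        = ∑ n ∈ Ioc 0 (NN 1 a), wt 1 a n * lam (A i * n + B i) *
          FF (fun p : PS W R => (p : ℕ)) y (pat A B (PS W R) n) ^ 2 :=
      sum_congr rfl fun n _ => by ring
    show 998 / 1000 * t ≤ ∑ n ∈ Ioc 0 (NN 1 a), wt 1 a n * FF (fun p : PS W R => (p : ℕ)) y
          (pat A B (PS W R) n) ^ 2 * lam (A i * n + B i)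
    rw [h4]
    linarith
  · intro i n hn hvn
    exact hlamle i n (mem_Ioc.1 hn).1 (left_ne_zero_of_mul hvn)
  · intro n hn hvn hgood i i' hii
    by_contra hc
    push Not at hc
    apply hgood
    have hp := hlamne i n hc.1
    have hp' := hlamne i' n hc.2
    refine Nat.succ_le_of_lt (one_lt_card.2 ⟨i, ?_, i', ?_, hii⟩)
    · exact mem_filter.2 ⟨mem_univ _, hp⟩
    · exact mem_filter.2 ⟨mem_univ _, hp'⟩

end NPC
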